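import Pool.Agent.Q161.ESM.Stm1
import Pool.Agent.Q51.EL.LSV
import Pool.Agent.Q91.EL.Sums

/-!
# Project ESM of helper161, job GS: the large sieve in a box with different sides, with bad primes
-/

set_option autoImplicit false
set_option linter.all false

namespace Pool.Agent.Q285.ESM

open Finset
open Pool.Agent.Q161.ESM
open Pool.Agent.Q51.EL (S_LSV S_SUMS lsv)
open Pool.Agent.Q91.EL (sums)

/-- the large sieve for a box, general index type -/
theorem lsvJ (J : Type) [Fintype J] [DecidableEq J] (N Q : ℕ) (M : J → ℕ) (P : Finset ℕ) (Z : Finset (J → ℕ))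
    (Om : (t : ℕ) → Finset (J → ZMod t)) (η : ℕ → ℝ) (hN : 1 ≤ N) (hQ : Q ^ 2 ≤ N)
    (hP : ∀ t ∈ P, t.Prime) (hZ : ∀ z ∈ Z, ∀ j, 1 ≤ z j ∧ z j ≤ M j) (hη : ∀ t ∈ P, 0 < η t)
    (hOm : ∀ t ∈ P, ((Om t).card : ℝ) ≤ (1 - η t) * (t : ℝ) ^ Fintype.card J)
    (hZO : ∀ z ∈ Z, ∀ t ∈ P, (fun i => ((z i : ℕ) : ZMod t)) ∈ Om t) :
    (Z.card : ℝ) * ∑ D ∈ P.powerset.filter (fun D => ∏ t ∈ D, t ≤ Q), ∏ t ∈ D, η t ≤
      ∏ j, (12 * ((M j : ℝ) + N)) := by
  classical
  obtain ⟨s, hs⟩ : ∃ s : ℝ, s = ∑ D ∈ P.powerset.filter (fun D => ∏ t ∈ D, t ≤ Q), ∏ t ∈ D, η t :=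
    ⟨_, rfl⟩
  rw [← hs]
  obtain ⟨K, hK⟩ : ∃ K : Finset (J → ℕ), K = Fintype.piFinset fun j => range (M j / N + 1) := ⟨_, rfl⟩
  have hmap : ∀ z ∈ Z, (fun i => (z i - 1) / N) ∈ K := by
    intro z hz
    rw [hK, Fintype.mem_piFinset]
    intro i
    rw [Finset.mem_range]
    exact Nat.lt_succ_of_le (Nat.div_le_div_right (by have := (hZ z hz i).2; omega))
  have hcard := Finset.card_eq_sum_card_fiberwise (s := Z) (t := K)
    (f := fun (z : J → ℕ) (i : J) => (z i - 1) / N) (fun z hz => hmap z hz)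
  let e : J ≃ Fin (Fintype.card J) := Fintype.equivFin J
  have hcell : ∀ κ ∈ K, ((Z.filter (fun z => (fun i => (z i - 1) / N) = κ)).card : ℝ) * s ≤
      (12 * (N : ℝ)) ^ Fintype.card J := by
    intro κ _
    rw [hs]
    have hc : ((Z.filter (fun z => (fun i => (z i - 1) / N) = κ)).image (fun z => z ∘ e.symm)).card =
        (Z.filter (fun z => (fun i => (z i - 1) / N) = κ)).card := by
      refine Finset.card_image_of_injective _ ?_
      intro x y hxy
      funext j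
      have h1 := congrFun hxy (e j)
      simpa using h1
    rw [← hc]
    refine lsv (Fintype.card J) N Q (fun i => N * κ (e.symm i)) P _ (fun t => (Om t).image (fun v => v ∘ e.symm))
      η hN hQ hP ?_ hη ?_ ?_
    · intro z hz i
      obtain ⟨z', hz', rfl⟩ := Finset.mem_image.1 hz
      obtain ⟨h1, h2⟩ := Finset.mem_filter.1 hz'
      rw [← h2, Finset.mem_Ioc]
      have h3 := (hZ z' h1 (e.symm i)).1
      have h4 := Nat.div_add_mod (z' (e.symm i) - 1) N
      have h5 := Nat.mod_lt (z' (e.symm i) - 1) (by omega : N > 0)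
      constructor
      · change N * ((z' (e.symm i) - 1) / N) < z' (e.symm i)
        omega
      · change z' (e.symm i) ≤ N * ((z' (e.symm i) - 1) / N) + N
        omega
    · intro t ht
      refine le_trans ?_ (hOm t ht)
      exact_mod_cast Finset.card_image_le
    · intro z hz t ht
      obtain ⟨z', hz', rfl⟩ := Finset.mem_image.1 hz
      rw [Finset.mem_image]
      exact ⟨_, hZO z' (Finset.mem_filter.1 hz').1 t ht, rfl⟩
  have h1 : (Z.card : ℝ) * s ≤ K.card * (12 * (N : ℝ)) ^ Fintype.card J := by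
    rw [hcard, Nat.cast_sum, Finset.sum_mul, ← nsmul_eq_mul]
    exact Finset.sum_le_card_nsmul _ _ _ hcell
  refine h1.trans ?_
  have hKc : (K.card : ℝ) = ∏ j, (((M j / N : ℕ) : ℝ) + 1) := by
    rw [hK, Fintype.card_piFinset]
    push_cast
    simp only [Finset.card_range]
    push_cast
    rfl
  rw [hKc, ← Finset.card_univ, ← Finset.prod_const, ← Finset.prod_mul_distrib]
  refine Finset.prod_le_prod (fun j _ => by positivity) fun j _ => ?_
  have h3 : (M j / N) * N ≤ M j := Nat.div_mul_le_self _ _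
  have h4 : (((M j / N) * N : ℕ) : ℝ) ≤ ((M j : ℕ) : ℝ) := by exact_mod_cast h3
  push_cast at h4
  nlinarith

variable {ι : Type} [Fintype ι] [DecidableEq ι]

/-- the set of the allowed classes which agree with `z` outside `S` -/
def Cl (n : ι → ℕ) (Om : (l : ℕ) → Set (Vm n l)) (S : Finset ι) (l : ℕ) (z : Vc n) : Set (Vm n l) :=
  {y : Vm n l | y ∈ Om l ∧ ∀ i, i ∉ S → y i = rd n l z i}

theorem finite_Vm (n : ι → ℕ) {l : ℕ} (hl : l.Prime) (T : Set (Vm n l)) : T.Finite := by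
  haveI : NeZero l := ⟨hl.ne_zero⟩
  exact Set.toFinite _

theorem frac_eq (n : ι → ℕ) (Om : (l : ℕ) → Set (Vm n l)) (S : Finset ι) (l : ℕ) (z : Vc n) (hl : l ≠ 0) :
    (((Cl n Om S l z).ncard : ℕ) : ℝ) = (l : ℝ) ^ (∑ i ∈ S, n i) * frac n Om S l z := by
  have h : (l : ℝ) ≠ 0 := by exact_mod_cast hl
  unfold frac Cl
  field_simp

theorem frac_nonneg (n : ι → ℕ) (Om : (l : ℕ) → Set (Vm n l)) (S : Finset ι) (l : ℕ) (z : Vc n) :
    0 ≤ frac n Om S l z := by
  unfold frac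
  positivity

theorem card_J (n : ι → ℕ) (S : Finset ι) : Fintype.card (Σ i : S, Fin (n i)) = ∑ i ∈ S, n i := by
  rw [Fintype.card_sigma]
  simp only [Fintype.card_fin]
  exact Finset.sum_coe_sort S n

theorem prod_J (n : ι → ℕ) (S : Finset ι) (g : ι → ℝ) :
    ∏ j : (Σ i : S, Fin (n i)), g j.1 = ∏ i ∈ S, g i ^ n i := by
  rw [Fintype.prod_sigma]
  simp only [Finset.prod_const, Finset.card_univ, Fintype.card_fin]
  exact Finset.prod_coe_sort S fun i => g i ^ n i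

/-- one class modulo `q` -/
theorem one (n : ι → ℕ) (Om : (l : ℕ) → Set (Vm n l)) (S : Finset ι) (z a : Vc n) (H : ι → ℕ) (q N Q : ℕ)
    (P : Finset ℕ) (F : Finset (Vc n)) (η : ℕ → ℝ) (hq : 1 ≤ q) (hN : 1 ≤ N) (hQ : Q ^ 2 ≤ N)
    (hP : ∀ t ∈ P, t.Prime ∧ ¬ t ∣ q) (hF : ∀ x ∈ F, InB n S a H z x)
    (hc : ∀ x ∈ F, ∀ y ∈ F, ∀ i ∈ S, ∀ j, (q : ℤ) ∣ x i j - y i j)
    (hη : ∀ t ∈ P, 0 < η t ∧ frac n Om S t z ≤ 1 - η t)
    (hO : ∀ x ∈ F, ∀ t ∈ P, rd n t x ∈ Om t) :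
    (F.card : ℝ) * ∑ D ∈ P.powerset.filter (fun D => ∏ t ∈ D, t ≤ Q), ∏ t ∈ D, η t ≤
      ∏ i ∈ S, (12 * ((H i : ℝ) / q + 1 + N)) ^ n i := by
  classical
  obtain ⟨u, hu⟩ : ∃ u : Vc n → ((Σ i : S, Fin (n i)) → ℕ),
    u = fun x j => (x j.1 j.2 - a j.1 j.2).toNat / q + 1 := ⟨_, rfl⟩
  -- the integer parts
  have hw : ∀ x ∈ F, ∀ i ∈ S, ∀ j, (((x i j - a i j).toNat : ℕ) : ℤ) = x i j - a i j := by
    intro x hx i hi j
    exact Int.toNat_of_nonneg (by have := (hF x hx).1 i hi j; linarith [this.1])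
  have hmod : ∀ x ∈ F, ∀ y ∈ F, ∀ i ∈ S, ∀ j, (x i j - a i j).toNat % q = (y i j - a i j).toNat % q := by
    intro x hx y hy i hi j
    have h1 : ((x i j - a i j).toNat : ℤ) ≡ ((y i j - a i j).toNat : ℤ) [ZMOD q] := by
      rw [hw x hx i hi j, hw y hy i hi j]
      refine Int.modEq_iff_dvd.2 ?_
      have h2 := hc y hy x hx i hi j
      rw [show y i j - a i j - (x i j - a i j) = y i j - x i j by ring]
      exact h2
    exact (Int.natCast_modEq_iff).1 h1
  have hdm : ∀ x : Vc n, ∀ i j, (x i j - a i j).toNat =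
      q * ((x i j - a i j).toNat / q) + (x i j - a i j).toNat % q := fun x i j => (Nat.div_add_mod _ _).symm
  have hinj : Set.InjOn u F := by
    intro x hx y hy hxy
    funext i
    by_cases hi : i ∈ S
    · funext j
      have h1 := congrFun hxy ⟨⟨i, hi⟩, j⟩
      rw [hu] at h1
      have h2 : (x i j - a i j).toNat / q = (y i j - a i j).toNat / q := Nat.succ_injective h1
      have h3 := hdm x i j
      have h4 := hdm y i j
      rw [h2, hmod x hx y hy i hi j, ← h4] at h3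
      have h5 := hw x hx i hi j
      have h6 := hw y hy i hi j
      rw [h3, h6] at h5
      linarith
    · rw [(hF x hx).2 i hi, (hF y hy).2 i hi]
  have hmain := lsvJ (Σ i : S, Fin (n i)) N Q (fun j => H j.1 / q + 1) P (F.image u)
    (fun t => (F.image u).image fun v j => ((v j : ℕ) : ZMod t)) η hN hQ (fun t ht => (hP t ht).1)
    (by
      intro v hv j
      obtain ⟨x, hx, rfl⟩ := Finset.mem_image.1 hv
      rw [hu]
      constructor
      · exact Nat.le_add_left 1 _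
      · change (x j.1 j.2 - a j.1 j.2).toNat / q + 1 ≤ H j.1 / q + 1
        refine Nat.succ_le_succ (Nat.div_le_div_right ?_)
        have h1 := hw x hx j.1 j.1.2 j.2
        have h2 := ((hF x hx).1 j.1 j.1.2 j.2).2
        have h3 : (((x j.1 j.2 - a j.1 j.2).toNat : ℕ) : ℤ) ≤ H j.1 := by rw [h1]; linarith
        exact_mod_cast h3)
    (fun t ht => (hη t ht).1)
    (by
      intro t ht
      obtain ⟨htp, htq⟩ := hP t ht
      refine le_trans ?_ (mul_le_mul_of_nonneg_right (hη t ht).2 (by positivity))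
      rw [card_J, mul_comm, ← frac_eq n Om S t z htp.ne_zero, Nat.cast_le,
        Set.ncard_eq_toFinset_card _ (finite_Vm n htp _), image_image]
      have hch : ∀ r ∈ F.image ((fun (v : (Σ i : S, Fin (n i)) → ℕ) j => ((v j : ℕ) : ZMod t)) ∘ u),
          ∃ x ∈ F, (fun j => ((u x j : ℕ) : ZMod t)) = r := by
        intro r hr
        obtain ⟨x, hx, h⟩ := Finset.mem_image.1 hr
        exact ⟨x, hx, h⟩
      choose! g hg1 hg2 using hch
      refine card_le_card_of_injOn (fun r => rd n t (g r)) ?_ ?_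
      · intro r hr
        rw [Finset.mem_coe, Set.Finite.mem_toFinset]
        refine ⟨hO _ (hg1 r hr) t ht, fun i hi => ?_⟩
        have h1 := (hF _ (hg1 r hr)).2 i hi
        change (fun j => ((g r i j : ℤ) : ZMod t)) = fun j => ((z i j : ℤ) : ZMod t)
        rw [h1]
      · intro r hr r' hr' hrr
        rw [← hg2 r hr, ← hg2 r' hr']
        have hx := hg1 r hr
        have hy := hg1 r' hr'
        funext j
        have h1 := congrFun (congrFun hrr j.1) j.2
        have h1' : ((g r j.1 j.2 : ℤ) : ZMod t) = ((g r' j.1 j.2 : ℤ) : ZMod t) := h1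
        have h2 := hdm (g r) j.1 j.2
        have h3 := hdm (g r') j.1 j.2
        have h4 := hw _ hx j.1 j.1.2 j.2
        have h5 := hw _ hy j.1 j.1.2 j.2
        have h6 := hmod _ hx _ hy j.1 j.1.2 j.2
        have h7 : (((g r j.1 j.2 - a j.1 j.2).toNat : ℕ) : ZMod t) =
            (((g r' j.1 j.2 - a j.1 j.2).toNat : ℕ) : ZMod t) := by
          have e1 : ((((g r j.1 j.2 - a j.1 j.2).toNat : ℕ) : ℤ) : ZMod t) =
              ((((g r' j.1 j.2 - a j.1 j.2).toNat : ℕ) : ℤ) : ZMod t) := by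
            rw [h4, h5, Int.cast_sub, Int.cast_sub, h1']
          rw [Int.cast_natCast, Int.cast_natCast] at e1
          exact e1
        rw [h2, h3, h6] at h7
        push_cast at h7
        have h8 := add_right_cancel h7
        haveI : Fact t.Prime := ⟨htp⟩
        have h9 : (q : ZMod t) ≠ 0 := by
          rw [Ne, ZMod.natCast_eq_zero_iff]
          exact htq
        have h10 := mul_left_cancel₀ h9 h8
        rw [hu]
        change (((g r j.1 j.2 - a j.1 j.2).toNat / q + 1 : ℕ) : ZMod t) =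
          (((g r' j.1 j.2 - a j.1 j.2).toNat / q + 1 : ℕ) : ZMod t)
        push_cast
        rw [h10])
    (by
      intro v hv t _
      exact mem_image_of_mem _ hv)
  rw [Finset.card_image_of_injOn hinj] at hmain
  refine hmain.trans ?_
  rw [← prod_J n S fun i => 12 * ((H i : ℝ) / q + 1 + N)]
  refine Finset.prod_le_prod (fun j _ => by positivity) fun j _ => ?_
  have h1 : ((H j.1 / q : ℕ) : ℝ) ≤ (H j.1 : ℝ) / q := Nat.cast_div_le
  push_cast
  linarith

/-- the decomposition into classes -/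
theorem classes (n : ι → ℕ) (Om : (l : ℕ) → Set (Vm n l)) (S : Finset ι) (z : Vc n)
    (D : Finset ℕ) (hD : ∀ l ∈ D, l.Prime) (X : Finset (Vc n))
    (hX : ∀ x ∈ X, (∀ i, i ∉ S → x i = z i) ∧ ∀ l ∈ D, rd n l x ∈ Om l) (M : ℝ)
    (hfib : ∀ F : Finset (Vc n), F ⊆ X → (∀ x ∈ F, ∀ y ∈ F, ∀ i ∈ S, ∀ j, ((∏ l ∈ D, l : ℕ) : ℤ) ∣ x i j - y i j) →
      (F.card : ℝ) ≤ M) (hM : 0 ≤ M) :
    (X.card : ℝ) ≤ (((∏ l ∈ D, l : ℕ) : ℝ) ^ (∑ i ∈ S, n i) * ∏ l ∈ D, frac n Om S l z) * M := by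
  classical
  let f : Vc n → ((l : D) → Vm n l) := fun x l => rd n l x
  let A : (l : D) → Finset (Vm n l) := fun l => (finite_Vm n (hD l l.2) (Cl n Om S l z)).toFinset
  have hA : ∀ l : D, ((A l).card : ℝ) = (l : ℝ) ^ (∑ i ∈ S, n i) * frac n Om S l z := by
    intro l
    rw [← frac_eq n Om S l z (hD l l.2).ne_zero, Set.ncard_eq_toFinset_card _ (finite_Vm n (hD l l.2) _)]
  have himg : X.image f ⊆ Fintype.piFinset A := by
    intro r hr
    obtain ⟨x, hx, rfl⟩ := Finset.mem_image.1 hr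
    rw [Fintype.mem_piFinset]
    intro l
    rw [Set.Finite.mem_toFinset]
    refine ⟨(hX x hx).2 l l.2, fun i hi => ?_⟩
    change rd n l x i = rd n l z i
    unfold rd
    rw [(hX x hx).1 i hi]
  have hcard : ((X.image f).card : ℝ) ≤
      ((∏ l ∈ D, l : ℕ) : ℝ) ^ (∑ i ∈ S, n i) * ∏ l ∈ D, frac n Om S l z := by
    have h1 := Finset.card_le_card himg
    rw [Fintype.card_piFinset] at h1
    have h2 : ((∏ l : D, (A l).card : ℕ) : ℝ) = ∏ l ∈ D, ((l : ℝ) ^ (∑ i ∈ S, n i) * frac n Om S l z) := by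
      push_cast
      rw [Finset.prod_congr rfl fun l _ => hA l]
      exact Finset.prod_coe_sort D fun l => (l : ℝ) ^ (∑ i ∈ S, n i) * frac n Om S l z
    have h3 : ∏ l ∈ D, ((l : ℝ) ^ (∑ i ∈ S, n i) * frac n Om S l z) =
        ((∏ l ∈ D, l : ℕ) : ℝ) ^ (∑ i ∈ S, n i) * ∏ l ∈ D, frac n Om S l z := by
      rw [Finset.prod_mul_distrib, Finset.prod_pow]
      push_cast
      rfl
    rw [← h3, ← h2]
    exact_mod_cast h1
  have hfibre : ∀ b ∈ X.image f, ((X.filter fun x => f x = b).card : ℝ) ≤ M := by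
    intro b _
    refine hfib _ (Finset.filter_subset _ _) ?_
    intro x hx y hy i _ j
    have hx2 := (Finset.mem_filter.1 hx).2
    have hy2 := (Finset.mem_filter.1 hy).2
    rw [Nat.cast_prod]
    refine Finset.prod_dvd_of_coprime ?_ ?_
    · intro l hl l' hl' hne
      exact (Nat.isCoprime_iff_coprime).2 ((Nat.coprime_primes (hD l hl) (hD l' hl')).2 hne)
    · intro l hl
      have h1 : f x ⟨l, hl⟩ = f y ⟨l, hl⟩ := by rw [hx2, hy2]
      have h2 := congrFun (congrFun h1 i) j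
      have h3 : ((x i j : ℤ) : ZMod l) = ((y i j : ℤ) : ZMod l) := h2
      exact (ZMod.intCast_eq_intCast_iff_dvd_sub _ _ _).1 h3.symm
  have hsum : (X.card : ℝ) = ∑ b ∈ X.image f, ((X.filter fun x => f x = b).card : ℝ) := by
    have h1 := Finset.card_eq_sum_card_image f X
    rw [h1]
    push_cast
    rfl
  rw [hsum]
  refine (Finset.sum_le_card_nsmul _ _ _ hfibre).trans ?_
  rw [nsmul_eq_mul]
  exact mul_le_mul_of_nonneg_right hcard hM

theorem exp_neg_le {x : ℝ} (h0 : 0 ≤ x) (h1 : x ≤ 1 / 2) : Real.exp (-x) ≤ (1 - x) * Real.exp (x ^ 2) := by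
  have h2 := Real.quadratic_le_exp_of_nonneg (by positivity : 0 ≤ x + x ^ 2)
  have h3 : 1 ≤ (1 - x) * Real.exp (x + x ^ 2) := by
    refine le_trans ?_ (mul_le_mul_of_nonneg_left h2 (by linarith : 0 ≤ 1 - x))
    have h4 : (1 - x) * (1 + (x + x ^ 2) + (x + x ^ 2) ^ 2 / 2) = 1 + x ^ 2 * ((1 - x - x ^ 2 - x ^ 3) / 2) := by
      ring
    rw [h4]
    have h5 : x ^ 2 ≤ 1 / 4 := by nlinarith
    have h6 : x ^ 3 ≤ 1 / 8 := by nlinarith
    have h7 : 0 ≤ x ^ 2 * ((1 - x - x ^ 2 - x ^ 3) / 2) := mul_nonneg (sq_nonneg x) (by linarith)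
    linarith
  calc Real.exp (-x) = Real.exp (-x) * 1 := (mul_one _).symm
    _ ≤ Real.exp (-x) * ((1 - x) * Real.exp (x + x ^ 2)) := mul_le_mul_of_nonneg_left h3 (Real.exp_pos _).le
    _ = (1 - x) * (Real.exp (-x) * Real.exp (x + x ^ 2)) := by ring
    _ = (1 - x) * Real.exp (x ^ 2) := by
        rw [← Real.exp_add]
        congr 2
        ring

/-- **Job GS.** -/
theorem gs : S_GS := by
  intro ι _ _ n A hn hA
  classical
  obtain ⟨c, hc, hsum⟩ := sums (A + 1) (by linarith)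
  obtain ⟨D, hD⟩ : ∃ D : ℕ, D = ∑ i, n i := ⟨_, rfl⟩
  obtain ⟨K2, hK2⟩ : ∃ K2 : ℝ, K2 = ∑' m : ℕ, 1 / (m : ℝ) ^ 2 := ⟨_, rfl⟩
  obtain ⟨K0, hK0⟩ : ∃ K0 : ℝ, K0 = ∏ l ∈ Icc 1 ⌊2 * A⌋₊, (l : ℝ) ^ D := ⟨_, rfl⟩
  have hsummable : Summable (fun m : ℕ => 1 / (m : ℝ) ^ 2) := Real.summable_one_div_nat_pow.2 (by norm_num)
  have hK0pos : 0 < K0 := by
    rw [hK0]
    refine Finset.prod_pos fun l hl => ?_
    have h1 : (0 : ℝ) < l := by exact_mod_cast (Finset.mem_Icc.1 hl).1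
    positivity
  refine ⟨36 ^ D / c * Real.exp (A ^ 2 * K2) * K0, by positivity, ?_⟩
  intro Om S z a H Y P Pb X hS hY hHY hdis hprime hqY hfr hX
  obtain ⟨d, hd⟩ : ∃ d : ℕ, d = ∑ i ∈ S, n i := ⟨_, rfl⟩
  have hdD : d ≤ D := by
    rw [hd, hD]
    exact Finset.sum_le_sum_of_subset (Finset.subset_univ S)
  have hf0 : ∀ l, 0 ≤ frac n Om S l z := fun l => frac_nonneg n Om S l z
  rcases X.eq_empty_or_nonempty with rfl | ⟨x1, hx1⟩
  · simp only [Finset.card_empty, Nat.cast_zero]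
    have h1 : 0 ≤ ∏ l ∈ P ∪ Pb, frac n Om S l z := Finset.prod_nonneg fun l _ => hf0 l
    positivity
  have hprime1 : ∀ l ∈ P ∪ Pb, l.Prime := fun l hl => (hprime l hl).1
  have hf1 : ∀ l ∈ P ∪ Pb, 1 / (l : ℝ) ^ D ≤ frac n Om S l z := by
    intro l hl
    have hlp := hprime1 l hl
    have hl1 : (1 : ℝ) ≤ l := by exact_mod_cast hlp.one_le
    have hl0 : (0 : ℝ) < l := by linarith
    have h1 := frac_eq n Om S l z hlp.ne_zero
    have h2 : 1 ≤ (Cl n Om S l z).ncard := by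
      rw [Nat.one_le_iff_ne_zero, Ne, Set.ncard_eq_zero (finite_Vm n hlp _)]
      intro h3
      have h4 : rd n l x1 ∈ Cl n Om S l z := by
        refine ⟨(hX x1 hx1).2 l hl, fun i hi => ?_⟩
        have h5 := (hX x1 hx1).1.2 i hi
        change (fun j => ((x1 i j : ℤ) : ZMod l)) = fun j => ((z i j : ℤ) : ZMod l)
        rw [h5]
      rw [h3] at h4
      exact h4
    have h3 : (1 : ℝ) ≤ (l : ℝ) ^ d * frac n Om S l z := by
      rw [hd, ← h1]
      exact_mod_cast h2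
    have h4 : (l : ℝ) ^ d ≤ (l : ℝ) ^ D := pow_le_pow_right₀ hl1 hdD
    rw [div_le_iff₀ (by positivity)]
    calc (1 : ℝ) ≤ (l : ℝ) ^ d * frac n Om S l z := h3
      _ ≤ (l : ℝ) ^ D * frac n Om S l z := mul_le_mul_of_nonneg_right h4 (hf0 l)
      _ = _ := mul_comm _ _
  -- parameters
  obtain ⟨q, hq⟩ : ∃ q : ℕ, q = ∏ l ∈ Pb, l := ⟨_, rfl⟩
  rw [← hq] at hqY
  have hq1 : 1 ≤ q := by
    rw [hq, Nat.one_le_iff_ne_zero, Finset.prod_ne_zero_iff]
    exact fun l hl => (hprime1 l (mem_union_right _ hl)).ne_zero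
  have hq0 : (0 : ℝ) < q := by exact_mod_cast hq1
  have hY0 : 0 < Y := by linarith
  have hsY : 1 ≤ √Y := Real.one_le_sqrt.2 hY
  have hssY : 1 ≤ √√Y := Real.one_le_sqrt.2 hsY
  obtain ⟨N, hN⟩ : ∃ N : ℕ, N = ⌊√Y⌋₊ := ⟨_, rfl⟩
  obtain ⟨Q, hQ⟩ : ∃ Q : ℕ, Q = ⌊√√Y⌋₊ := ⟨_, rfl⟩
  have hN1 : 1 ≤ N := by rw [hN]; exact Nat.le_floor (by exact_mod_cast hsY)
  have hQ1 : 1 ≤ Q := by rw [hQ]; exact Nat.le_floor (by exact_mod_cast hssY)
  have hNY : (N : ℝ) ≤ √Y := by rw [hN]; exact Nat.floor_le (by linarith)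
  have hQY : (Q : ℝ) ≤ √√Y := by rw [hQ]; exact Nat.floor_le (by linarith)
  have hQN : Q ^ 2 ≤ N := by
    rw [hN]
    refine Nat.le_floor ?_
    push_cast
    calc (Q : ℝ) ^ 2 ≤ √√Y ^ 2 := pow_le_pow_left₀ (Nat.cast_nonneg _) hQY 2
      _ = √Y := Real.sq_sqrt (by linarith)
  obtain ⟨P', hP'⟩ : ∃ P' : Finset ℕ, P' = P.filter fun l : ℕ => 2 * A < (l : ℝ) ∧ frac n Om S l z < 1 := ⟨_, rfl⟩
  obtain ⟨η, hη⟩ : ∃ η : ℕ → ℝ, η = fun l => 1 - frac n Om S l z := ⟨_, rfl⟩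
  have hP'P : ∀ l ∈ P', l ∈ P := by
    intro l hl
    rw [hP'] at hl
    exact (Finset.mem_filter.1 hl).1
  have hP'2 : ∀ l ∈ P', 2 * A < (l : ℝ) ∧ frac n Om S l z < 1 := by
    intro l hl
    rw [hP'] at hl
    exact (Finset.mem_filter.1 hl).2
  have hηA : ∀ l ∈ P', 0 < η l ∧ η l ≤ A / l := by
    intro l hl
    rw [hη]
    have h1 := hfr l (hP'P l hl)
    have h2 := (hP'2 l hl).2
    constructor
    · change 0 < 1 - frac n Om S l z
      linarith
    · change 1 - frac n Om S l z ≤ A / l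
      linarith
  have hlpos : ∀ l ∈ P', (0 : ℝ) < l := fun l hl => by
    exact_mod_cast (hprime1 l (mem_union_left _ (hP'P l hl))).pos
  have hη2 : ∀ l ∈ P', η l ≤ 1 / 2 := by
    intro l hl
    refine (hηA l hl).2.trans ?_
    rw [div_le_iff₀ (hlpos l hl)]
    have := (hP'2 l hl).1
    linarith
  have hss := hsum Q P' η hQ1 (fun t ht => hprime1 t (mem_union_left _ (hP'P t ht)))
    (fun t ht => by
      rw [hQ]
      refine Nat.le_floor (Real.le_sqrt_of_sq_le (Real.le_sqrt_of_sq_le ?_))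
      have h1 := (hprime t (mem_union_left _ (hP'P t ht))).2
      calc ((t : ℝ) ^ 2) ^ 2 = (t : ℝ) ^ 4 := by ring
        _ ≤ Y := h1)
    (fun t ht => ⟨(hηA t ht).1.le, (hηA t ht).2.trans
      (div_le_div_of_nonneg_right (by linarith) (hlpos t ht).le)⟩)
  obtain ⟨E, hE⟩ : ∃ E : ℝ, E = Real.exp (∑ t ∈ P', η t) := ⟨_, rfl⟩
  have hE0 : 0 < E := by rw [hE]; exact Real.exp_pos _
  rw [← hE] at hss
  have hHpos : ∀ i ∈ S, (0 : ℝ) < H i := fun i hi => lt_of_lt_of_le hY0 (hHY i hi)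
  obtain ⟨M, hM⟩ : ∃ M : ℝ, M = 36 ^ d * (∏ i ∈ S, (H i : ℝ) ^ n i) / (q : ℝ) ^ d / (c * E) := ⟨_, rfl⟩
  have hprodH : 0 < ∏ i ∈ S, (H i : ℝ) ^ n i := Finset.prod_pos fun i hi => pow_pos (hHpos i hi) _
  have hM0 : 0 ≤ M := by
    rw [hM]
    positivity
  have hclass := classes n Om S z Pb (fun l hl => hprime1 l (mem_union_right _ hl)) X
    (fun x hx => ⟨(hX x hx).1.2, fun l hl => (hX x hx).2 l (mem_union_right _ hl)⟩) M
    (by
      intro F hFX hFc
      rw [← hq] at hFc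
      have h1 := one n Om S z a H q N Q P' F η hq1 hN1 hQN
        (fun t ht => by
          have htP := hP'P t ht
          have htp := hprime1 t (mem_union_left _ htP)
          refine ⟨htp, fun hdvd => ?_⟩
          rw [hq, Prime.dvd_finset_prod_iff htp.prime] at hdvd
          obtain ⟨l, hl, htl⟩ := hdvd
          have hlp := hprime1 l (mem_union_right _ hl)
          have h2 : t = l := (Nat.prime_dvd_prime_iff_eq htp hlp).1 htl
          subst h2
          exact (Finset.disjoint_left.1 hdis htP) hl)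
        (fun x hx => (hX x (hFX hx)).1) hFc
        (fun t ht => ⟨(hηA t ht).1, by rw [hη]; linarith⟩)
        (fun x hx t ht => (hX x (hFX hx)).2 t (mem_union_left _ (hP'P t ht)))
      have h2 : (F.card : ℝ) * (c * E) ≤ ∏ i ∈ S, (12 * ((H i : ℝ) / q + 1 + N)) ^ n i :=
        (mul_le_mul_of_nonneg_left hss (Nat.cast_nonneg _)).trans h1
      have h3 : ∏ i ∈ S, (12 * ((H i : ℝ) / q + 1 + N)) ^ n i ≤
          36 ^ d * (∏ i ∈ S, (H i : ℝ) ^ n i) / (q : ℝ) ^ d := by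
        have h4 : 36 ^ d * (∏ i ∈ S, (H i : ℝ) ^ n i) / (q : ℝ) ^ d =
            ∏ i ∈ S, (36 * ((H i : ℝ) / q)) ^ n i := by
          have h5 : ∀ i ∈ S, (36 * ((H i : ℝ) / q)) ^ n i = 36 ^ n i * (H i : ℝ) ^ n i / (q : ℝ) ^ n i := by
            intro i _
            rw [mul_pow, div_pow, mul_div_assoc]
          rw [Finset.prod_congr rfl h5, Finset.prod_div_distrib, Finset.prod_mul_distrib,
            Finset.prod_pow_eq_pow_sum, Finset.prod_pow_eq_pow_sum, hd]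
        rw [h4]
        refine Finset.prod_le_prod (fun i _ => by positivity) fun i hi => ?_
        refine pow_le_pow_left₀ (by positivity) ?_ _
        have h6 : √Y ≤ (H i : ℝ) / q := by
          rw [le_div_iff₀ hq0]
          have h7 : (q : ℝ) ≤ √Y := Real.le_sqrt_of_sq_le hqY
          calc √Y * q ≤ √Y * √Y := by gcongr
            _ = Y := Real.mul_self_sqrt hY0.le
            _ ≤ H i := hHY i hi
        linarith
      rw [hM, le_div_iff₀ (by positivity)]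
      exact h2.trans h3) hM0
  rw [← hq, ← hd] at hclass
  -- the exponential
  have hexp : E⁻¹ ≤ (∏ l ∈ P', frac n Om S l z) * Real.exp (A ^ 2 * K2) := by
    have h1 : E⁻¹ = ∏ l ∈ P', Real.exp (-η l) := by
      rw [hE, ← Real.exp_neg, ← Finset.sum_neg_distrib, Real.exp_sum]
    rw [h1]
    have h2 : ∏ l ∈ P', Real.exp (-η l) ≤ ∏ l ∈ P', (frac n Om S l z * Real.exp (η l ^ 2)) := by
      refine Finset.prod_le_prod (fun l _ => (Real.exp_pos _).le) fun l hl => ?_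
      have h3 := exp_neg_le (hηA l hl).1.le (hη2 l hl)
      have h4 : 1 - η l = frac n Om S l z := by rw [hη]; ring
      rw [h4] at h3
      exact h3
    refine h2.trans ?_
    rw [Finset.prod_mul_distrib, ← Real.exp_sum]
    refine mul_le_mul_of_nonneg_left (Real.exp_le_exp.2 ?_) (Finset.prod_nonneg fun l _ => hf0 l)
    have h3 : ∑ l ∈ P', η l ^ 2 ≤ ∑ l ∈ P', A ^ 2 * (1 / (l : ℝ) ^ 2) := by
      refine Finset.sum_le_sum fun l hl => ?_
      calc η l ^ 2 ≤ (A / l) ^ 2 := pow_le_pow_left₀ (hηA l hl).1.le (hηA l hl).2 2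
        _ = _ := by rw [div_pow]; ring
    refine h3.trans ?_
    rw [← Finset.mul_sum]
    refine mul_le_mul_of_nonneg_left ?_ (sq_nonneg A)
    rw [hK2]
    exact hsummable.sum_le_tsum P' fun m _ => by positivity
  -- small primes
  have hsmall : ∏ l ∈ P', frac n Om S l z ≤ K0 * ∏ l ∈ P, frac n Om S l z := by
    have h1 : (∏ l ∈ P', frac n Om S l z) *
        ∏ l ∈ P.filter (fun l : ℕ => ¬ (2 * A < (l : ℝ) ∧ frac n Om S l z < 1)), frac n Om S l z =
        ∏ l ∈ P, frac n Om S l z := by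
      rw [hP']
      exact Finset.prod_filter_mul_prod_filter_not _ _ _
    obtain ⟨P2, hP2⟩ : ∃ P2 : Finset ℕ,
      P2 = P.filter (fun l : ℕ => ¬ (2 * A < (l : ℝ) ∧ frac n Om S l z < 1)) := ⟨_, rfl⟩
    rw [← hP2] at h1
    have h2 : 1 ≤ K0 * ∏ l ∈ P2, frac n Om S l z := by
      have h3 : ∏ l ∈ P2, (if (l : ℝ) ≤ 2 * A then 1 / (l : ℝ) ^ D else 1) ≤ ∏ l ∈ P2, frac n Om S l z := by
        refine Finset.prod_le_prod (fun l _ => ?_) fun l hl => ?_
        · split_ifs <;> positivity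
        · rw [hP2, Finset.mem_filter] at hl
          split_ifs with h4
          · exact hf1 l (mem_union_left _ hl.1)
          · by_contra h5
            exact hl.2 ⟨lt_of_not_ge h4, lt_of_not_ge h5⟩
      have h4 : ∏ l ∈ P2, (if (l : ℝ) ≤ 2 * A then 1 / (l : ℝ) ^ D else 1) =
          (∏ l ∈ P2.filter (fun l : ℕ => (l : ℝ) ≤ 2 * A), (l : ℝ) ^ D)⁻¹ := by
        rw [← Finset.prod_filter, ← Finset.prod_inv_distrib]
        exact Finset.prod_congr rfl fun l _ => one_div _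
      have h5 : ∏ l ∈ P2.filter (fun l : ℕ => (l : ℝ) ≤ 2 * A), (l : ℝ) ^ D ≤ K0 := by
        rw [hK0]
        refine Finset.prod_le_prod_of_subset_of_one_le ?_ (fun l _ => by positivity) ?_
        · intro l hl
          rw [Finset.mem_filter, hP2, Finset.mem_filter] at hl
          rw [Finset.mem_Icc]
          exact ⟨(hprime1 l (mem_union_left _ hl.1.1)).one_le, Nat.le_floor hl.2⟩
        · intro l hl _
          refine one_le_pow₀ ?_
          exact_mod_cast (Finset.mem_Icc.1 hl).1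
      have h6 : 0 < ∏ l ∈ P2.filter (fun l : ℕ => (l : ℝ) ≤ 2 * A), (l : ℝ) ^ D := by
        refine Finset.prod_pos fun l hl => ?_
        rw [Finset.mem_filter, hP2, Finset.mem_filter] at hl
        have h7 : (0 : ℝ) < l := by exact_mod_cast (hprime1 l (mem_union_left _ hl.1.1)).pos
        positivity
      rw [h4] at h3
      calc (1 : ℝ) = (∏ l ∈ P2.filter (fun l : ℕ => (l : ℝ) ≤ 2 * A), (l : ℝ) ^ D) *
            (∏ l ∈ P2.filter (fun l : ℕ => (l : ℝ) ≤ 2 * A), (l : ℝ) ^ D)⁻¹ := (mul_inv_cancel₀ h6.ne').symm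
        _ ≤ K0 * ∏ l ∈ P2, frac n Om S l z := mul_le_mul h5 h3 (inv_pos.2 h6).le hK0pos.le
    rw [← h1]
    have h3 : 0 ≤ ∏ l ∈ P', frac n Om S l z := Finset.prod_nonneg fun l _ => hf0 l
    calc ∏ l ∈ P', frac n Om S l z = (∏ l ∈ P', frac n Om S l z) * 1 := (mul_one _).symm
      _ ≤ (∏ l ∈ P', frac n Om S l z) * (K0 * ∏ l ∈ P2, frac n Om S l z) := mul_le_mul_of_nonneg_left h2 h3
      _ = _ := by ring
  -- conclusion
  have hpb0 : 0 ≤ ∏ l ∈ Pb, frac n Om S l z := Finset.prod_nonneg fun l _ => hf0 l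
  have hp0 : 0 ≤ ∏ l ∈ P, frac n Om S l z := Finset.prod_nonneg fun l _ => hf0 l
  have h36 : (36 : ℝ) ^ d ≤ 36 ^ D := pow_le_pow_right₀ (by norm_num) hdD
  rw [Finset.prod_union hdis]
  calc (X.card : ℝ) ≤ (q : ℝ) ^ d * (∏ l ∈ Pb, frac n Om S l z) * M := hclass
    _ = 36 ^ d / c * (∏ i ∈ S, (H i : ℝ) ^ n i) * (∏ l ∈ Pb, frac n Om S l z) * E⁻¹ := by
        rw [hM]
        field_simp
    _ ≤ 36 ^ D / c * (∏ i ∈ S, (H i : ℝ) ^ n i) * (∏ l ∈ Pb, frac n Om S l z) *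
          ((K0 * ∏ l ∈ P, frac n Om S l z) * Real.exp (A ^ 2 * K2)) := by
        have h1 : E⁻¹ ≤ (K0 * ∏ l ∈ P, frac n Om S l z) * Real.exp (A ^ 2 * K2) :=
          hexp.trans (mul_le_mul_of_nonneg_right hsmall (Real.exp_pos _).le)
        have h2 : 36 ^ d / c ≤ 36 ^ D / c := div_le_div_of_nonneg_right h36 hc.le
        refine mul_le_mul ?_ h1 (inv_pos.2 hE0).le (by positivity)
        refine mul_le_mul_of_nonneg_right ?_ hpb0
        exact mul_le_mul_of_nonneg_right h2 hprodH.le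
    _ = _ := by ring

end Pool.Agent.Q285.ESM
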